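import Pool.Agent.Helper36.RN.Goals

/-!
# Project RFn, existence part: difference estimate of the mixed system (packet QF4)
-/

namespace Pool.Agent.Helper38.RN

open Set Filter Topology MeasureTheory Pool.Agent.Helper47.RFn Pool.Agent.Helper36.RN

variable {n : ℕ}

theorem young {ε : ℝ} (hε : 0 < ε) (m : ℕ) (u v : XS n) :
    bf m u v ≤ ε * sn m v + (4 * ε)⁻¹ * sn m u := by
  have h1 := cs_bf m u v
  have h2 := sn_nonneg m u
  have h3 := sn_nonneg m v
  have h4 : 0 ≤ ε * sn m v + (4 * ε)⁻¹ * sn m u := by positivity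
  have h5 : sn m u * sn m v ≤ (ε * sn m v + (4 * ε)⁻¹ * sn m u) ^ 2 := by
    have h6 : (ε * sn m v + (4 * ε)⁻¹ * sn m u) ^ 2 =
        (ε * sn m v - (4 * ε)⁻¹ * sn m u) ^ 2 + sn m u * sn m v := by
      field_simp
      ring
    rw [h6]
    linarith [sq_nonneg (ε * sn m v - (4 * ε)⁻¹ * sn m u)]
  exact (le_abs_self _).trans (abs_le_of_sq_le_sq (h1.trans h5) h4)

theorem young' {ε K X : ℝ} (hε : 0 < ε) (hK : 0 ≤ K) (hX : 0 ≤ X) (u v : XS n)
    (h : sn 0 v ≤ K * X) :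
    bf 0 u v ≤ ε * X + (4 * (ε / (K + 1)))⁻¹ * sn 0 u := by
  have h1 : 0 < ε / (K + 1) := by positivity
  have h2 := young h1 0 u v
  have h4 : K / (K + 1) ≤ 1 := by
    rw [div_le_one (by positivity)]
    linarith
  have h3 : ε / (K + 1) * sn 0 v ≤ ε * X := by
    calc ε / (K + 1) * sn 0 v ≤ ε / (K + 1) * (K * X) := mul_le_mul_of_nonneg_left h h1.le
      _ = ε * X * (K / (K + 1)) := by field_simp
      _ ≤ ε * X * 1 := mul_le_mul_of_nonneg_left h4 (by positivity)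
      _ = ε * X := mul_one _
  linarith

theorem sn_sum_le {ι : Type} (m : ℕ) (s : Finset ι) (x : ι → XS n) :
    sn m (∑ k ∈ s, x k) ≤ 2 ^ s.card * ∑ k ∈ s, sn m (x k) := by
  classical
  induction s using Finset.induction_on with
  | empty => simp [sn]
  | insert a s ha ih =>
    rw [Finset.sum_insert ha, Finset.sum_insert ha, Finset.card_insert_of_notMem ha]
    have h1 := sn_add_le m (x a) (∑ k ∈ s, x k)
    have h2 := sn_nonneg m (x a)
    have h3 : (1 : ℝ) ≤ 2 ^ s.card := one_le_pow₀ (by norm_num)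
    have h4 := mul_le_mul_of_nonneg_right h3 h2
    rw [pow_succ]
    linarith

theorem exists_unif {ι : Type} [Fintype ι] {P : ι → ℝ → Prop}
    (hmono : ∀ i a b, a ≤ b → P i a → P i b) (h : ∀ i, ∃ C, P i C) : ∃ C, 0 ≤ C ∧ ∀ i, P i C := by
  choose c hc using h
  refine ⟨∑ i, |c i|, Finset.sum_nonneg fun i _ => abs_nonneg _, fun i => hmono i _ _ ?_ (hc i)⟩
  exact (le_abs_self _).trans
    (Finset.single_le_sum (f := fun i => |c i|) (fun i _ => abs_nonneg _) (Finset.mem_univ i))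

/-- integrated ellipticity -/
theorem ell_int {lam : ℝ} (a : KK n → KK n → XS n) (h : EllA lam a) (w : XS n) :
    lam * ∑ p, ip (Ld p w) (Ld p w) ≤ ∑ p, ip (Ld p w) (∑ q, a p q * Ld q w) := by
  have e1 : ∑ p, ip (Ld p w) (∑ q, a p q * Ld q w) = ip 1 (∑ p, Ld p w * ∑ q, a p q * Ld q w) := by
    rw [map_sum]
    exact Finset.sum_congr rfl fun p _ => by rw [← ip_mul_left, one_mul]
  have e2 : lam * ∑ p, ip (Ld p w) (Ld p w) = ip 1 (lam • ∑ p, Ld p w * Ld p w) := by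
    rw [map_smul, map_sum, smul_eq_mul]
    congr 1
    exact Finset.sum_congr rfl fun p _ => by rw [← ip_mul_left, one_mul]
  rw [e1, e2]
  apply ip_mono
  intro x
  have h1 := h w x
  rw [one_val, one_mul, one_mul, smul_val, sum_val, sum_val]
  simp only [mul_val, sum_val]
  refine le_trans (le_of_eq ?_) (h1.trans (le_of_eq ?_))
  · congr 1
    exact Finset.sum_congr rfl fun p _ => by ring
  · refine Finset.sum_congr rfl fun p _ => ?_
    rw [Finset.mul_sum]
    exact Finset.sum_congr rfl fun q _ => by ring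

/-- one component of the second group: energy estimate of the difference -/
theorem comp_le {lam : ℝ} (hlam : 0 < lam) (a : KK n → KK n → XS n) (h : EllA lam a) (w : XS n)
    (R : KK n → XS n) (S : XS n) :
    bf 0 w (∑ p, Ld p ((∑ q, a p q * Ld q w) + R p) + S) ≤
      -(3 / 4 * lam) * (∑ p, sn 0 (Ld p w)) + lam⁻¹ * (∑ p, sn 0 (R p)) + bf 0 w S := by
  have h1 := ell_int a h w
  have h2 : bf 0 w (∑ p, Ld p ((∑ q, a p q * Ld q w) + R p) + S) =
      -(∑ p, ip (Ld p w) (∑ q, a p q * Ld q w)) + (∑ p, bf 0 (Ld p w) (-R p)) + bf 0 w S := by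
    have h3 : ∀ p (f : XS n), ip w (Ld p f) = - ip (Ld p w) f := by
      intro p f
      rw [ibp]
      ring
    rw [map_add, map_sum]
    congr 1
    simp only [bf_zero, h3]
    rw [← Finset.sum_neg_distrib, ← Finset.sum_add_distrib]
    refine Finset.sum_congr rfl fun p _ => ?_
    rw [map_add, map_neg]
    ring
  have h3 : ∀ p, bf 0 (Ld p w) (-R p) ≤ lam / 4 * sn 0 (Ld p w) + lam⁻¹ * sn 0 (R p) := by
    intro p
    have h4 := young (show 0 < lam⁻¹ by positivity) 0 (Ld p w) (-R p)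
    rw [sn_neg] at h4
    have h5 : (4 * lam⁻¹)⁻¹ = lam / 4 := by
      rw [mul_inv, inv_inv]
      ring
    rw [h5] at h4
    linarith
  have h4 : ∑ p, bf 0 (Ld p w) (-R p) ≤ lam / 4 * (∑ p, sn 0 (Ld p w)) + lam⁻¹ * ∑ p, sn 0 (R p) := by
    rw [Finset.mul_sum, Finset.mul_sum, ← Finset.sum_add_distrib]
    exact Finset.sum_le_sum fun p _ => h3 p
  have h6 : ∑ p, ip (Ld p w) (Ld p w) = ∑ p, sn 0 (Ld p w) :=
    Finset.sum_congr rfl fun p _ => (sn_zero _).symm
  rw [h6] at h1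
  rw [h2]
  linarith

/-- moving a derivative -/
theorem s2_le {ε K : ℝ} (hε : 0 < ε) (hK : 0 ≤ K) (p : KK n) (w g f : XS n)
    (h1 : ∀ z, sn 0 (g * z) ≤ K * sn 0 z) (h2 : ∀ z, sn 0 (Ld p g * z) ≤ K * sn 0 z) :
    bf 0 w (g * Ld p f) ≤ ε * (sn 0 w + sn 0 (Ld p w)) + (4 * (ε / (2 * K + 1)))⁻¹ * sn 0 f := by
  have e1 : bf 0 w (g * Ld p f) = bf 0 f (-(Ld p (w * g))) := by
    rw [bf_zero, bf_zero, ← ip_mul_left, map_neg, ip_comm f, ibp, neg_neg]
  rw [e1]
  refine young' hε (by positivity) (add_nonneg (sn_nonneg _ _) (sn_nonneg _ _)) _ _ ?_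
  rw [sn_neg, Derivation.leibniz, smul_eq_mul, smul_eq_mul]
  have h3 := sn_add_le 0 (w * Ld p g) (g * Ld p w)
  have h4 := h1 (Ld p w)
  have h5 := h2 w
  rw [mul_comm (Ld p g) w] at h5
  linarith

section main

variable {I J : Type} [Fintype I] [Fintype J]

theorem sn_of_qq {m : ℕ} {L : ℝ} {y : I ⊕ J → XS n} (h : qq m y ≤ L) (a : I ⊕ J) :
    sn m (y a) ≤ L := by
  refine le_trans ?_ h
  exact Finset.single_le_sum (f := fun a => sn m (y a)) (fun a _ => sn_nonneg _ _)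
    (Finset.mem_univ a)

omit [Fintype I] [Fintype J] in
theorem zj_le {L : ℝ} {u : I → XS n} {v : J → XS n} (hu : ∀ i, sn (2 * n + 6) (u i) ≤ L)
    (hv : ∀ j, sn (2 * n + 6) (v j) ≤ L) : ∀ a, sn (2 * n + 2) (zj u v a) ≤ L := by
  intro a
  rcases a with (i | j) | p
  · exact (sn_mono (by omega) _).trans (hu i)
  · exact (sn_mono (by omega) _).trans (hv j)
  · exact (sn_Ld (2 * n + 2) p.1 (v p.2)).trans ((sn_mono (by omega) _).trans (hv p.2))

omit [Fintype I] [Fintype J] in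
theorem zj'_le {L : ℝ} {u : I → XS n} {v : J → XS n} (hu : ∀ i, sn (2 * n + 6) (u i) ≤ L)
    (hv : ∀ j, sn (2 * n + 6) (v j) ≤ L) : ∀ a, sn (2 * n + 2) (zj' u v a) ≤ L := by
  intro a
  rcases a with a | p
  · exact zj_le hu hv a
  · exact (sn_Ld (2 * n + 2) p.1 (u p.2)).trans ((sn_mono (by omega) _).trans (hu p.2))

theorem zj_diff (u u' : I → XS n) (v v' : J → XS n) :
    ∑ a, sn 0 (zj u v a - zj u' v' a) =
      (∑ i, sn 0 (u i - u' i)) + (∑ j, sn 0 (v j - v' j)) + ∑ j, ∑ p, sn 0 (Ld p (v j - v' j)) := by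
  rw [Fintype.sum_sum_type, Fintype.sum_sum_type, Fintype.sum_prod_type, Finset.sum_comm]
  congr 1
  refine Finset.sum_congr rfl fun j _ => Finset.sum_congr rfl fun p _ => ?_
  rw [map_sub]
  rfl

omit [Fintype I] [Fintype J] in
theorem FJ_diff (D : QLD n I J) (u u' : I → XS n) (v v' : J → XS n) (j : J) :
    D.FJ u v j - D.FJ u' v' j =
      ∑ p, Ld p ((∑ q, MvPolynomial.aeval u (D.α p q) * Ld q (v j - v' j)) +
        ((∑ q, (MvPolynomial.aeval u (D.α p q) - MvPolynomial.aeval u' (D.α p q)) * Ld q (v' j)) +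
          (MvPolynomial.aeval (Sum.elim u v) (D.β p j) -
            MvPolynomial.aeval (Sum.elim u' v') (D.β p j)))) +
      (MvPolynomial.aeval (zj' u v) (D.W j) - MvPolynomial.aeval (zj' u' v') (D.W j)) := by
  unfold QLD.FJ
  have h1 : ∀ p, (∑ q, MvPolynomial.aeval u (D.α p q) * Ld q (v j - v' j)) +
        ((∑ q, (MvPolynomial.aeval u (D.α p q) - MvPolynomial.aeval u' (D.α p q)) * Ld q (v' j)) +
          (MvPolynomial.aeval (Sum.elim u v) (D.β p j) -
            MvPolynomial.aeval (Sum.elim u' v') (D.β p j))) =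
      ((∑ q, MvPolynomial.aeval u (D.α p q) * Ld q (v j)) +
        MvPolynomial.aeval (Sum.elim u v) (D.β p j)) -
      ((∑ q, MvPolynomial.aeval u' (D.α p q) * Ld q (v' j)) +
        MvPolynomial.aeval (Sum.elim u' v') (D.β p j)) := by
    intro p
    simp only [map_sub, sub_mul, mul_sub, Finset.sum_sub_distrib]
    ring
  simp only [h1]
  rw [Finset.sum_congr rfl fun p _ => map_sub (Ld p) _ _, Finset.sum_sub_distrib]
  ring

theorem qf4_core (D : QLD n I J) {lam L CG Ca Cb Cg CP : ℝ} (hlam : 0 < lam)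
    (hCG : 0 ≤ CG) (hCa : 0 ≤ Ca) (hCb : 0 ≤ Cb) (hCg : 0 ≤ Cg) (hCP : 0 ≤ CP)
    (g : J → ((I ⊕ J) ⊕ (KK n × J)) ⊕ (KK n × I) →
      MvPolynomial ((((I ⊕ J) ⊕ (KK n × J)) ⊕ (KK n × I)) ⊕ (((I ⊕ J) ⊕ (KK n × J)) ⊕ (KK n × I))) ℝ) :
    ∃ C : ℝ, ∀ (u u' : I → XS n) (v v' : J → XS n),
    (∀ j, sn (2 * n + 6) (v' j) ≤ L) →
    EllA lam (fun p q => (MvPolynomial.aeval u (D.α p q) : XS n)) →
    (∀ i, sn 0 (D.FI u v i - D.FI u' v' i) ≤ CG * ((∑ i, sn 0 (u i - u' i)) +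
      (∑ j, sn 0 (v j - v' j)) + ∑ j, ∑ p, sn 0 (Ld p (v j - v' j)))) →
    (∀ p q, sn 0 (MvPolynomial.aeval u (D.α p q) - MvPolynomial.aeval u' (D.α p q)) ≤
      Ca * ∑ i, sn 0 (u i - u' i)) →
    (∀ p j, sn 0 (MvPolynomial.aeval (Sum.elim u v) (D.β p j) -
      MvPolynomial.aeval (Sum.elim u' v') (D.β p j)) ≤
      Cb * ((∑ i, sn 0 (u i - u' i)) + ∑ j, sn 0 (v j - v' j))) →
    (∀ j a, sn (2 * n + 2) (MvPolynomial.aeval (Sum.elim (zj' u v) (zj' u' v')) (g j a)) ≤ Cg) →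
    (∀ j, MvPolynomial.aeval (zj' u v) (D.W j) - MvPolynomial.aeval (zj' u' v') (D.W j) =
      ∑ a, MvPolynomial.aeval (Sum.elim (zj' u v) (zj' u' v')) (g j a) * (zj' u v a - zj' u' v' a)) →
    (∀ f h : XS n, sn 0 (f * h) ≤ CP * (sn (n + 1) f * sn 0 h)) →
    (∑ i, bf 0 (u i - u' i) (D.FI u v i - D.FI u' v' i)) +
      ∑ j, bf 0 (v j - v' j) (D.FJ u v j - D.FJ u' v' j) ≤
      C * ((∑ i, sn 0 (u i - u' i)) + ∑ j, sn 0 (v j - v' j)) := by
  set nI : ℝ := (Fintype.card I : ℝ) with hnI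
  set nJ : ℝ := (Fintype.card J : ℝ) with hnJ
  set nP : ℝ := (Fintype.card (KK n × I) : ℝ) with hnP
  set nK : ℝ := (Fintype.card (KK n) : ℝ) with hnK
  have hnI0 : 0 ≤ nI := Nat.cast_nonneg _
  have hnJ0 : 0 ≤ nJ := Nat.cast_nonneg _
  have hnP0 : 0 ≤ nP := Nat.cast_nonneg _
  have hnK0 : 0 ≤ nK := Nat.cast_nonneg _
  set nU : ℕ := (Finset.univ : Finset ((I ⊕ J) ⊕ (KK n × J))).card with hnU
  set nV : ℕ := (Finset.univ : Finset (KK n)).card with hnV
  set ε : ℝ := (3 / 4 * lam) / (nI + nJ * (1 + nP) + 1) with hε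
  have hε0 : 0 < ε := by positivity
  set K1 : ℝ := 2 ^ nU * (CP * Cg) with hK1
  set KR : ℝ := 2 * (2 ^ nV * (nK * (CP * (|L| * Ca))) + Cb) with hKR
  set c0 : ℝ := (4 * (ε / (CG + 1)))⁻¹ with hc0
  set c1 : ℝ := (4 * (ε / (K1 + 1)))⁻¹ with hc1
  set c2 : ℝ := (4 * (ε / (2 * (CP * Cg) + 1)))⁻¹ with hc2
  have hK10 : 0 ≤ K1 := by positivity
  have hKR0 : 0 ≤ KR := by positivity
  have hc00 : 0 ≤ c0 := by positivity
  have hc10 : 0 ≤ c1 := by positivity
  have hc20 : 0 ≤ c2 := by positivity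
  refine ⟨nI * c0 + nJ * (lam⁻¹ * (nK * KR) + c1 + nP * c2) + 3 / 4 * lam, ?_⟩
  intro u u' v v' hv' hell hG ha hb hg hW hP
  set A : ℝ := ∑ i, sn 0 (u i - u' i) with hAdef
  set B : ℝ := ∑ j, sn 0 (v j - v' j) with hBdef
  set E : ℝ := ∑ j, ∑ p, sn 0 (Ld p (v j - v' j)) with hEdef
  have hA : 0 ≤ A := Finset.sum_nonneg fun i _ => sn_nonneg _ _
  have hB : 0 ≤ B := Finset.sum_nonneg fun j _ => sn_nonneg _ _
  have hE : 0 ≤ E := Finset.sum_nonneg fun j _ => Finset.sum_nonneg fun i _ => sn_nonneg _ _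
  have hAi : ∀ i, sn 0 (u i - u' i) ≤ A := fun i =>
    Finset.single_le_sum (f := fun i => sn 0 (u i - u' i)) (fun i _ => sn_nonneg _ _) (Finset.mem_univ i)
  have hBj : ∀ j, sn 0 (v j - v' j) ≤ B := fun j =>
    Finset.single_le_sum (f := fun j => sn 0 (v j - v' j)) (fun j _ => sn_nonneg _ _) (Finset.mem_univ j)
  have hEj : ∀ j, ∑ p, sn 0 (Ld p (v j - v' j)) ≤ E := fun j =>
    Finset.single_le_sum (f := fun j => ∑ p, sn 0 (Ld p (v j - v' j)))
      (fun j _ => Finset.sum_nonneg fun p _ => sn_nonneg _ _) (Finset.mem_univ j)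
  have hEjp : ∀ j p, sn 0 (Ld p (v j - v' j)) ≤ E := fun j p =>
    (Finset.single_le_sum (f := fun p => sn 0 (Ld p (v j - v' j)))
      (fun p _ => sn_nonneg _ _) (Finset.mem_univ p)).trans (hEj j)
  -- first group
  have hI : ∑ i, bf 0 (u i - u' i) (D.FI u v i - D.FI u' v' i) ≤
      nI * (ε * (A + B + E) + c0 * (A + B)) := by
    have h1 : ∀ i, bf 0 (u i - u' i) (D.FI u v i - D.FI u' v' i) ≤
        ε * (A + B + E) + c0 * (A + B) := by
      intro i
      refine (young' hε0 hCG (by positivity) _ _ (hG i)).trans ?_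
      have h2 : c0 * sn 0 (u i - u' i) ≤ c0 * (A + B) :=
        mul_le_mul_of_nonneg_left ((hAi i).trans (by linarith)) hc00
      linarith
    refine (Finset.sum_le_sum fun i _ => h1 i).trans (le_of_eq ?_)
    rw [Finset.sum_const, Finset.card_univ, nsmul_eq_mul]
  -- second group
  have hR : ∀ p j, sn 0 ((∑ q, (MvPolynomial.aeval u (D.α p q) - MvPolynomial.aeval u' (D.α p q)) *
      Ld q (v' j)) + (MvPolynomial.aeval (Sum.elim u v) (D.β p j) -
        MvPolynomial.aeval (Sum.elim u' v') (D.β p j))) ≤ KR * (A + B) := by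
    intro p j
    have h1 := sn_add_le 0 (∑ q, (MvPolynomial.aeval u (D.α p q) - MvPolynomial.aeval u' (D.α p q)) *
      Ld q (v' j)) (MvPolynomial.aeval (Sum.elim u v) (D.β p j) -
        MvPolynomial.aeval (Sum.elim u' v') (D.β p j))
    have h2 := sn_sum_le 0 (Finset.univ : Finset (KK n)) (fun q =>
      (MvPolynomial.aeval u (D.α p q) - MvPolynomial.aeval u' (D.α p q)) * Ld q (v' j))
    have h3 : ∀ q, sn 0 ((MvPolynomial.aeval u (D.α p q) - MvPolynomial.aeval u' (D.α p q)) *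
        Ld q (v' j)) ≤ CP * (|L| * Ca) * (A + B) := by
      intro q
      rw [mul_comm]
      refine (hP _ _).trans ?_
      have h4 : sn (n + 1) (Ld q (v' j)) ≤ |L| :=
        ((sn_Ld (n + 1) q (v' j)).trans ((sn_mono (by omega) _).trans (hv' j))).trans (le_abs_self L)
      have h5 := mul_le_mul h4 ((ha p q).trans (mul_le_mul_of_nonneg_left
        (show A ≤ A + B by linarith) hCa)) (sn_nonneg _ _) (abs_nonneg L)
      calc CP * (sn (n + 1) (Ld q (v' j)) *
            sn 0 (MvPolynomial.aeval u (D.α p q) - MvPolynomial.aeval u' (D.α p q)))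
          ≤ CP * (|L| * (Ca * (A + B))) := mul_le_mul_of_nonneg_left h5 hCP
        _ = CP * (|L| * Ca) * (A + B) := by ring
    have h6 : ∑ q, sn 0 ((MvPolynomial.aeval u (D.α p q) - MvPolynomial.aeval u' (D.α p q)) *
        Ld q (v' j)) ≤ nK * (CP * (|L| * Ca) * (A + B)) := by
      refine (Finset.sum_le_sum fun q _ => h3 q).trans (le_of_eq ?_)
      rw [Finset.sum_const, Finset.card_univ, nsmul_eq_mul]
    have h7 := hb p j
    have h8 : (2 : ℝ) ^ nV * ∑ q, sn 0 ((MvPolynomial.aeval u (D.α p q) -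
        MvPolynomial.aeval u' (D.α p q)) * Ld q (v' j)) ≤
        2 ^ nV * (nK * (CP * (|L| * Ca) * (A + B))) :=
      mul_le_mul_of_nonneg_left h6 (by positivity)
    have h9 : KR * (A + B) = 2 * (2 ^ nV * (nK * (CP * (|L| * Ca) * (A + B))) + Cb * (A + B)) := by
      rw [hKR]
      ring
    rw [h9]
    linarith
  have hmul : ∀ j a z, sn 0 (MvPolynomial.aeval (Sum.elim (zj' u v) (zj' u' v')) (g j a) * z) ≤
      CP * Cg * sn 0 z := by
    intro j a z
    refine (hP _ _).trans ?_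
    have h1 : sn (n + 1) (MvPolynomial.aeval (Sum.elim (zj' u v) (zj' u' v')) (g j a)) ≤ Cg :=
      (sn_mono (by omega) _).trans (hg j a)
    have h2 := mul_le_mul_of_nonneg_left (mul_le_mul_of_nonneg_right h1 (sn_nonneg 0 z)) hCP
    linarith
  have hmul' : ∀ j a p z, sn 0 (Ld p (MvPolynomial.aeval (Sum.elim (zj' u v) (zj' u' v')) (g j a)) * z) ≤
      CP * Cg * sn 0 z := by
    intro j a p z
    refine (hP _ _).trans ?_
    have h1 : sn (n + 1) (Ld p (MvPolynomial.aeval (Sum.elim (zj' u v) (zj' u' v')) (g j a))) ≤ Cg :=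
      (sn_Ld _ _ _).trans ((sn_mono (by omega) _).trans (hg j a))
    have h2 := mul_le_mul_of_nonneg_left (mul_le_mul_of_nonneg_right h1 (sn_nonneg 0 z)) hCP
    linarith
  have hS : ∀ j, bf 0 (v j - v' j)
      (MvPolynomial.aeval (zj' u v) (D.W j) - MvPolynomial.aeval (zj' u' v') (D.W j)) ≤
      ε * (A + B + E) + c1 * (A + B) + nP * (ε * (A + B + E) + c2 * (A + B)) := by
    intro j
    rw [hW j, Fintype.sum_sum_type, map_add]
    have h1 : bf 0 (v j - v' j) (∑ a, MvPolynomial.aeval (Sum.elim (zj' u v) (zj' u' v')) (g j (Sum.inl a)) *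
        (zj' u v (Sum.inl a) - zj' u' v' (Sum.inl a))) ≤ ε * (A + B + E) + c1 * (A + B) := by
      refine (young' (K := K1) (X := A + B + E) hε0 hK10 (by positivity) _ _ ?_).trans ?_
      · refine (sn_sum_le 0 _ _).trans ?_
        have h2 : ∑ a, sn 0 (MvPolynomial.aeval (Sum.elim (zj' u v) (zj' u' v')) (g j (Sum.inl a)) *
            (zj' u v (Sum.inl a) - zj' u' v' (Sum.inl a))) ≤ CP * Cg * (A + B + E) := by
          refine (Finset.sum_le_sum fun a _ => hmul j (Sum.inl a) _).trans (le_of_eq ?_)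
          rw [← Finset.mul_sum]
          congr 1
          exact zj_diff u u' v v'
        have h3 := mul_le_mul_of_nonneg_left h2 (show (0 : ℝ) ≤ 2 ^ nU by positivity)
        refine h3.trans (le_of_eq ?_)
        rw [hK1]
        ring
      · have h2 : c1 * sn 0 (v j - v' j) ≤ c1 * (A + B) :=
          mul_le_mul_of_nonneg_left ((hBj j).trans (by linarith)) hc10
        linarith
    have h2 : bf 0 (v j - v' j) (∑ a, MvPolynomial.aeval (Sum.elim (zj' u v) (zj' u' v')) (g j (Sum.inr a)) *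
        (zj' u v (Sum.inr a) - zj' u' v' (Sum.inr a))) ≤ nP * (ε * (A + B + E) + c2 * (A + B)) := by
      rw [map_sum]
      have h3 : ∀ a : KK n × I, bf 0 (v j - v' j)
          (MvPolynomial.aeval (Sum.elim (zj' u v) (zj' u' v')) (g j (Sum.inr a)) *
            (zj' u v (Sum.inr a) - zj' u' v' (Sum.inr a))) ≤ ε * (A + B + E) + c2 * (A + B) := by
        intro a
        have h4 : zj' u v (Sum.inr a) - zj' u' v' (Sum.inr a) = Ld a.1 (u a.2 - u' a.2) := by
          rw [map_sub]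
          rfl
        rw [h4]
        refine (s2_le hε0 (show 0 ≤ CP * Cg by positivity) a.1 _ _ _ (hmul j _) (hmul' j _ a.1)).trans ?_
        have h5 : c2 * sn 0 (u a.2 - u' a.2) ≤ c2 * (A + B) :=
          mul_le_mul_of_nonneg_left ((hAi a.2).trans (by linarith)) hc20
        have h6 : ε * (sn 0 (v j - v' j) + sn 0 (Ld a.1 (v j - v' j))) ≤ ε * (A + B + E) :=
          mul_le_mul_of_nonneg_left (by linarith [hBj j, hEjp j a.1]) hε0.le
        linarith
      refine (Finset.sum_le_sum fun a _ => h3 a).trans (le_of_eq ?_)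
      rw [Finset.sum_const, Finset.card_univ, nsmul_eq_mul]
    linarith
  have hJ : ∑ j, bf 0 (v j - v' j) (D.FJ u v j - D.FJ u' v' j) ≤
      -(3 / 4 * lam) * E + nJ * (lam⁻¹ * (nK * (KR * (A + B))) +
        (ε * (A + B + E) + c1 * (A + B) + nP * (ε * (A + B + E) + c2 * (A + B)))) := by
    have h1 : ∀ j, bf 0 (v j - v' j) (D.FJ u v j - D.FJ u' v' j) ≤
        -(3 / 4 * lam) * (∑ p, sn 0 (Ld p (v j - v' j))) + (lam⁻¹ * (nK * (KR * (A + B))) +
          (ε * (A + B + E) + c1 * (A + B) + nP * (ε * (A + B + E) + c2 * (A + B)))) := by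
      intro j
      rw [FJ_diff]
      refine (comp_le hlam (fun p q => MvPolynomial.aeval u (D.α p q)) hell (v j - v' j) _ _).trans ?_
      have h2 : ∑ p, sn 0 ((∑ q, (MvPolynomial.aeval u (D.α p q) - MvPolynomial.aeval u' (D.α p q)) *
          Ld q (v' j)) + (MvPolynomial.aeval (Sum.elim u v) (D.β p j) -
            MvPolynomial.aeval (Sum.elim u' v') (D.β p j))) ≤ nK * (KR * (A + B)) := by
        refine (Finset.sum_le_sum fun p _ => hR p j).trans (le_of_eq ?_)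
        rw [Finset.sum_const, Finset.card_univ, nsmul_eq_mul]
      have h3 := mul_le_mul_of_nonneg_left h2 (inv_pos.mpr hlam).le
      have h4 := hS j
      linarith
    refine (Finset.sum_le_sum fun j _ => h1 j).trans (le_of_eq ?_)
    rw [Finset.sum_add_distrib, Finset.sum_const, Finset.card_univ, nsmul_eq_mul, ← Finset.mul_sum]
  have hεk : ε * (nI + nJ * (1 + nP)) ≤ 3 / 4 * lam := by
    have h1 : ε * (nI + nJ * (1 + nP) + 1) = 3 / 4 * lam := by
      rw [hε]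
      have : nI + nJ * (1 + nP) + 1 ≠ 0 := by positivity
      field_simp
    nlinarith
  have h1 := mul_le_mul_of_nonneg_right hεk (show 0 ≤ A + B + E by positivity)
  have h2 : (nI * (ε * (A + B + E) + c0 * (A + B))) + (-(3 / 4 * lam) * E +
      nJ * (lam⁻¹ * (nK * (KR * (A + B))) +
        (ε * (A + B + E) + c1 * (A + B) + nP * (ε * (A + B + E) + c2 * (A + B))))) =
      ε * (nI + nJ * (1 + nP)) * (A + B + E) - 3 / 4 * lam * E
        + (nI * c0 + nJ * (lam⁻¹ * (nK * KR) + c1 + nP * c2)) * (A + B) := by ring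
  have h3 := add_le_add hI hJ
  rw [h2] at h3
  refine h3.trans ?_
  have h4 : (nI * c0 + nJ * (lam⁻¹ * (nK * KR) + c1 + nP * c2) + 3 / 4 * lam) * (A + B) =
      3 / 4 * lam * (A + B + E) - 3 / 4 * lam * E
        + (nI * c0 + nJ * (lam⁻¹ * (nK * KR) + c1 + nP * c2)) * (A + B) := by ring
  rw [h4]
  linarith

end main

theorem qf4 : G_QF4 := by
  intro _ hP hM hT n I J _ _ D u0 lam ρ hlam hEll L
  have mono : ∀ {c d e : ℝ}, c ≤ d → 0 ≤ e → c * e ≤ d * e := fun h h' => mul_le_mul_of_nonneg_right h h'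
  obtain ⟨CG, hCG, hG⟩ := exists_unif (ι := I) (P := fun i C => ∀ z z' : (I ⊕ J) ⊕ (KK n × J) → XS n,
      (∀ a, sn (0 + 2 * n + 2) (z a) ≤ L) → (∀ a, sn (0 + 2 * n + 2) (z' a) ≤ L) →
      sn 0 (MvPolynomial.aeval z (D.G i) - MvPolynomial.aeval z' (D.G i)) ≤ C * ∑ a, sn 0 (z a - z' a))
    (fun i a b hab h z z' hz hz' => (h z z' hz hz').trans
      (mono hab (Finset.sum_nonneg fun a _ => sn_nonneg _ _)))
    (fun i => (hM n _ (D.G i)).2.1 0 L)
  obtain ⟨Ca, hCa, ha⟩ := exists_unif (ι := KK n × KK n) (P := fun p C => ∀ z z' : I → XS n,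
      (∀ a, sn (0 + 2 * n + 2) (z a) ≤ L) → (∀ a, sn (0 + 2 * n + 2) (z' a) ≤ L) →
      sn 0 (MvPolynomial.aeval z (D.α p.1 p.2) - MvPolynomial.aeval z' (D.α p.1 p.2)) ≤
        C * ∑ a, sn 0 (z a - z' a))
    (fun i a b hab h z z' hz hz' => (h z z' hz hz').trans
      (mono hab (Finset.sum_nonneg fun a _ => sn_nonneg _ _)))
    (fun p => (hM n I (D.α p.1 p.2)).2.1 0 L)
  obtain ⟨Cb, hCb, hb⟩ := exists_unif (ι := KK n × J) (P := fun p C => ∀ z z' : I ⊕ J → XS n,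
      (∀ a, sn (0 + 2 * n + 2) (z a) ≤ L) → (∀ a, sn (0 + 2 * n + 2) (z' a) ≤ L) →
      sn 0 (MvPolynomial.aeval z (D.β p.1 p.2) - MvPolynomial.aeval z' (D.β p.1 p.2)) ≤
        C * ∑ a, sn 0 (z a - z' a))
    (fun i a b hab h z z' hz hz' => (h z z' hz hz').trans
      (mono hab (Finset.sum_nonneg fun a _ => sn_nonneg _ _)))
    (fun p => (hM n (I ⊕ J) (D.β p.1 p.2)).2.1 0 L)
  choose g hg using fun j => hT (((I ⊕ J) ⊕ (KK n × J)) ⊕ (KK n × I)) (D.W j)
  obtain ⟨Cg, hCg, hgb⟩ := exists_unif (ι := J × (((I ⊕ J) ⊕ (KK n × J)) ⊕ (KK n × I)))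
    (P := fun p C => ∀ z : (((I ⊕ J) ⊕ (KK n × J)) ⊕ (KK n × I)) ⊕ (((I ⊕ J) ⊕ (KK n × J)) ⊕ (KK n × I))
        → XS n, (∀ a, sn (2 * n + 2) (z a) ≤ L) →
      sn (2 * n + 2) (MvPolynomial.aeval z (g p.1 p.2)) ≤ C)
    (fun i a b hab h z hz => (h z hz).trans hab)
    (fun p => (hM n _ (g p.1 p.2)).2.2 (2 * n + 2) le_rfl L)
  obtain ⟨CP, hCP⟩ := (hP n).2.1 0
  obtain ⟨C, hC⟩ := qf4_core (L := L) (CP := |CP|) D hlam hCG hCa hCb hCg (abs_nonneg CP) g
  refine ⟨C, fun y y' hy _ hq hq' => ?_⟩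
  have hu : ∀ i, sn (2 * n + 6) (y (Sum.inl i)) ≤ L := fun i => sn_of_qq hq (Sum.inl i)
  have hv : ∀ j, sn (2 * n + 6) (y (Sum.inr j)) ≤ L := fun j => sn_of_qq hq (Sum.inr j)
  have hu' : ∀ i, sn (2 * n + 6) (y' (Sum.inl i)) ≤ L := fun i => sn_of_qq hq' (Sum.inl i)
  have hv' : ∀ j, sn (2 * n + 6) (y' (Sum.inr j)) ≤ L := fun j => sn_of_qq hq' (Sum.inr j)
  have hz2 : 0 + 2 * n + 2 = 2 * n + 2 := by omega
  have key := hC (fun i => y (Sum.inl i)) (fun i => y' (Sum.inl i)) (fun j => y (Sum.inr j))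
    (fun j => y' (Sum.inr j)) hv' (hEll _ hy)
    (fun i => by
      refine (hG i _ _ ?_ ?_).trans (le_of_eq ?_)
      · rw [hz2]; exact zj_le hu hv
      · rw [hz2]; exact zj_le hu' hv'
      · rw [zj_diff])
    (fun p q => ha (p, q) _ _ (fun i => (sn_mono (by omega) _).trans (hu i))
      (fun i => (sn_mono (by omega) _).trans (hu' i)))
    (fun p j => by
      refine (hb (p, j) _ _ ?_ ?_).trans (le_of_eq ?_)
      · rintro (i | j)
        · exact (sn_mono (by omega) _).trans (hu i)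
        · exact (sn_mono (by omega) _).trans (hv j)
      · rintro (i | j)
        · exact (sn_mono (by omega) _).trans (hu' i)
        · exact (sn_mono (by omega) _).trans (hv' j)
      · rw [Fintype.sum_sum_type]
        rfl)
    (fun j a => hgb (j, a) _ (by
      rintro (b | b)
      · exact zj'_le hu hv b
      · exact zj'_le hu' hv' b))
    (fun j => hg j (XS n) _ _)
    (fun f h => by
      have h1 := hCP f h
      rw [Nat.zero_add] at h1
      exact h1.trans (mul_le_mul_of_nonneg_right (le_abs_self CP)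
        (mul_nonneg (sn_nonneg _ _) (sn_nonneg _ _))))
  have e1 : bb 0 (y - y') (D.FF y - D.FF y') =
      (∑ i, bf 0 (y (Sum.inl i) - y' (Sum.inl i))
        (D.FI (fun i => y (Sum.inl i)) (fun j => y (Sum.inr j)) i -
          D.FI (fun i => y' (Sum.inl i)) (fun j => y' (Sum.inr j)) i)) +
      ∑ j, bf 0 (y (Sum.inr j) - y' (Sum.inr j))
        (D.FJ (fun i => y (Sum.inl i)) (fun j => y (Sum.inr j)) j -
          D.FJ (fun i => y' (Sum.inl i)) (fun j => y' (Sum.inr j)) j) := by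
    unfold bb
    rw [Fintype.sum_sum_type]
    rfl
  have e2 : qq 0 (y - y') = (∑ i, sn 0 (y (Sum.inl i) - y' (Sum.inl i))) +
      ∑ j, sn 0 (y (Sum.inr j) - y' (Sum.inr j)) := by
    unfold qq
    rw [Fintype.sum_sum_type]
    rfl
  rw [e1, e2]
  exact key

end Pool.Agent.Helper38.RN
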