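import Pool.Agent.Helper36.RN.GoalsG

/-!
# Project RFn, existence part: variation of the torsion (packet TEV1)
-/

namespace Pool.Agent.Helper38.RN

open Set Filter Topology Pool.Agent.Helper47.RFn Pool.Agent.Helper36.RN

section alg

variable {n : ℕ} {𝒜 : Type} [CommRing 𝒜] [Algebra ℝ 𝒜]

omit [Algebra ℝ 𝒜] in
theorem assoc3 {ι : Type} [Fintype ι] (x : ι → 𝒜) (Y : ι → ι → 𝒜) (z : ι → 𝒜) :
    ∑ b, (∑ f, x f * Y f b) * z b = ∑ b, x b * ∑ f, Y b f * z f := by
  simp only [Finset.sum_mul, Finset.mul_sum]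
  rw [Finset.sum_comm]
  exact Finset.sum_congr rfl fun b _ => Finset.sum_congr rfl fun f _ => by ring

omit [Algebra ℝ 𝒜] in
theorem delta_sum (f : Ix n → 𝒜) (b : Ix n) : ∑ q, (if b = q then (1 : 𝒜) else 0) * f q = f b := by
  simp

/-- covariant derivative of a matrix -/
def DM (e : Ix n → Derivation ℝ 𝒜 𝒜) (w : Ix n → Ix n → Ix n → 𝒜) (M : Ix n → Ix n → 𝒜)
    (i b c : Ix n) : 𝒜 :=
  e i (M b c) + ∑ f, M b f * w i f c - ∑ f, w i b f * M f c

theorem DM_add (e : Ix n → Derivation ℝ 𝒜 𝒜) (w : Ix n → Ix n → Ix n → 𝒜)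
    (S Z : Ix n → Ix n → 𝒜) (i b c : Ix n) :
    DM e w (fun a b => S a b + Z a b) i b c = DM e w S i b c + DM e w Z i b c := by
  simp only [DM, map_add, add_mul, mul_add, Finset.sum_add_distrib]
  ring

theorem tev_step (e : Ix n → Derivation ℝ 𝒜 𝒜) (n0 : Ix n → 𝒜) (θ : Ix n → Ix n → 𝒜)
    (w r : Ix n → Ix n → Ix n → 𝒜) (M : Ix n → Ix n → 𝒜) (i j c : Ix n) :
    e i (-∑ b, θ j b * M b c) - e j (-∑ b, θ i b * M b c)
      + ∑ b, ((-∑ f, θ j f * M f b) * w i b c + θ j b * r i b c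
        - (-∑ f, θ i f * M f b) * w j b c - θ i b * r j b c)
      - (n0 i * (-∑ b, θ j b * M b c) - n0 j * (-∑ b, θ i b * M b c)) =
    - (∑ q, TC.T e n0 θ w i j q * M q c) - ∑ b, θ j b * DM e w M i b c
      + ∑ b, θ i b * DM e w M j b c + ∑ b, (θ j b * r i b c - θ i b * r j b c) := by
  have hd : ∀ i j, e i (-∑ b, θ j b * M b c) =
      -(∑ b, e i (θ j b) * M b c) - ∑ b, θ j b * e i (M b c) := by
    intro i j
    rw [map_neg, map_sum]
    have h1 : ∀ b, e i (θ j b * M b c) = e i (θ j b) * M b c + θ j b * e i (M b c) := by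
      intro b
      rw [Derivation.leibniz, smul_eq_mul, smul_eq_mul]
      ring
    rw [Finset.sum_congr rfl fun b _ => h1 b, Finset.sum_add_distrib]
    ring
  have hT : ∑ q, TC.T e n0 θ w i j q * M q c =
      (∑ q, e i (θ j q) * M q c) - (∑ q, e j (θ i q) * M q c)
      + (∑ q, (∑ b, θ j b * w i b q) * M q c) - (∑ q, (∑ b, θ i b * w j b q) * M q c)
      - (n0 i * (∑ q, θ j q * M q c) - n0 j * ∑ q, θ i q * M q c) := by
    rw [Finset.mul_sum, Finset.mul_sum, ← Finset.sum_sub_distrib, ← Finset.sum_add_distrib,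
      ← Finset.sum_sub_distrib, ← Finset.sum_sub_distrib, ← Finset.sum_sub_distrib]
    refine Finset.sum_congr rfl fun q _ => ?_
    rw [TC.T, Finset.sum_sub_distrib]
    ring
  have hD : ∀ i j, ∑ b, θ j b * DM e w M i b c =
      (∑ b, θ j b * e i (M b c)) + (∑ b, θ j b * ∑ f, M b f * w i f c)
        - ∑ b, θ j b * ∑ f, w i b f * M f c := by
    intro i j
    rw [← Finset.sum_add_distrib, ← Finset.sum_sub_distrib]
    refine Finset.sum_congr rfl fun b _ => ?_
    rw [DM]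
    ring
  have hs : ∑ b, ((-∑ f, θ j f * M f b) * w i b c + θ j b * r i b c
        - (-∑ f, θ i f * M f b) * w j b c - θ i b * r j b c) =
      -(∑ b, (∑ f, θ j f * M f b) * w i b c) + (∑ b, (∑ f, θ i f * M f b) * w j b c)
        + ∑ b, (θ j b * r i b c - θ i b * r j b c) := by
    rw [← Finset.sum_neg_distrib, ← Finset.sum_add_distrib, ← Finset.sum_add_distrib]
    exact Finset.sum_congr rfl fun b _ => by ring
  rw [hd, hd, hs, hT, hD, hD, assoc3 (θ j) (fun f b => w i f b) (fun b => M b c),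
    assoc3 (θ i) (fun f b => w j f b) (fun b => M b c),
    assoc3 (θ j) (fun f b => M f b) (fun b => w i b c),
    assoc3 (θ i) (fun f b => M f b) (fun b => w j b c)]
  ring

omit [Algebra ℝ 𝒜] in
/-- contraction with the frame, first pattern -/
theorem contr1 (A θ : Ix n → Ix n → 𝒜) (At : ∀ a b, ∑ i, A a i * θ i b = if a = b then 1 else 0)
    (X : Ix n → Ix n → 𝒜) (a b : Ix n) :
    ∑ i, ∑ j, A a i * A b j * ∑ f, θ j f * X i f = ∑ i, A a i * X i b := by
  refine Finset.sum_congr rfl fun i _ => ?_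
  have h1 : ∀ j, A a i * A b j * ∑ f, θ j f * X i f = ∑ f, A a i * ((A b j * θ j f) * X i f) := by
    intro j
    rw [Finset.mul_sum]
    exact Finset.sum_congr rfl fun f _ => by ring
  rw [Finset.sum_congr rfl fun j _ => h1 j, Finset.sum_comm]
  have h2 : ∀ f, ∑ j, A a i * ((A b j * θ j f) * X i f) =
      A a i * ((if b = f then 1 else 0) * X i f) := by
    intro f
    rw [← At b f, Finset.sum_mul, Finset.mul_sum]
  rw [Finset.sum_congr rfl fun f _ => h2 f, ← Finset.mul_sum, delta_sum]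

omit [Algebra ℝ 𝒜] in
/-- contraction with the frame, second pattern -/
theorem contr2 (A θ : Ix n → Ix n → 𝒜) (At : ∀ a b, ∑ i, A a i * θ i b = if a = b then 1 else 0)
    (X : Ix n → Ix n → 𝒜) (a b : Ix n) :
    ∑ i, ∑ j, A a i * A b j * ∑ f, θ i f * X j f = ∑ j, A b j * X j a := by
  rw [Finset.sum_comm, ← contr1 A θ At X b a]
  exact Finset.sum_congr rfl fun i _ => Finset.sum_congr rfl fun j _ => by ring

omit [Algebra ℝ 𝒜] in
theorem contr_y (A θ : Ix n → Ix n → 𝒜) (At : ∀ a b, ∑ i, A a i * θ i b = if a = b then 1 else 0)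
    (y : Ix n → 𝒜) (a : Ix n) : ∑ i, A a i * ∑ g, θ i g * y g = y a := by
  have h1 : ∀ i, A a i * ∑ g, θ i g * y g = ∑ g, (A a i * θ i g) * y g := by
    intro i
    rw [Finset.mul_sum]
    exact Finset.sum_congr rfl fun f _ => by ring
  rw [Finset.sum_congr rfl fun i _ => h1 i, Finset.sum_comm]
  have h2 : ∀ g, ∑ i, (A a i * θ i g) * y g = (if a = g then 1 else 0) * y g := by
    intro g
    rw [← At a g, Finset.sum_mul]
  rw [Finset.sum_congr rfl fun g _ => h2 g, delta_sum]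

theorem contr_DM (e : Ix n → Derivation ℝ 𝒜 𝒜) (A : Ix n → Ix n → 𝒜) (w : Ix n → Ix n → Ix n → 𝒜)
    (anti : ∀ i c d, w i c d = - w i d c) (S : Ix n → Ix n → 𝒜) (a b c : Ix n) :
    ∑ i, A a i * DM e w S i b c = TC.cd2 e A w a S b c := by
  have h1 : ∑ i, A a i * DM e w S i b c =
      (∑ i, A a i * e i (S b c)) + (∑ i, A a i * ∑ f, S b f * w i f c)
        - ∑ i, A a i * ∑ f, w i b f * S f c := by
    rw [← Finset.sum_add_distrib, ← Finset.sum_sub_distrib]
    refine Finset.sum_congr rfl fun b _ => ?_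
    rw [DM]
    ring
  have h2 : ∑ i, A a i * ∑ f, S b f * w i f c = -∑ f, TC.Ga A w a c f * S b f := by
    rw [← Finset.sum_neg_distrib]
    simp only [Finset.mul_sum, TC.Ga, Finset.sum_mul]
    rw [Finset.sum_comm]
    refine Finset.sum_congr rfl fun f _ => ?_
    rw [← Finset.sum_neg_distrib]
    refine Finset.sum_congr rfl fun i _ => ?_
    rw [anti i c f]
    ring
  have h3 : ∑ i, A a i * ∑ f, w i b f * S f c = ∑ f, TC.Ga A w a b f * S f c := by
    simp only [Finset.mul_sum, TC.Ga, Finset.sum_mul]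
    rw [Finset.sum_comm]
    exact Finset.sum_congr rfl fun f _ => Finset.sum_congr rfl fun i _ => by ring
  rw [h1, h2, h3, TC.cd2, FR.Fd, Finset.sum_add_distrib]
  ring

end alg

theorem tev1 : G_TEV1 := by
  intro n 𝒜 _ _ e n0 A θ w h a b c
  have hrw : ∀ i b c, TC.rw e n0 A θ w i b c =
      (∑ g, θ i g * TC.y3 e n0 A w g b c) + DM e w (TC.ze e A w) i b c := by
    intro i b c
    rw [TC.rw, DM, Finset.sum_add_distrib]
    have h1 : ∑ f, w i c f * TC.ze e A w b f = -∑ f, TC.ze e A w b f * w i f c := by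
      rw [← Finset.sum_neg_distrib]
      refine Finset.sum_congr rfl fun f _ => ?_
      rw [h.anti i c f]
      ring
    rw [h1]
    ring
  have hM : (fun a b => TC.Mm e n0 A w a b) = fun a b => TC.Sr e n0 A w a b + TC.ze e A w a b := rfl
  have key : ∀ i j, TC.dT e n0 A θ w i j c =
      - (∑ q, TC.T e n0 θ w i j q * TC.Mm e n0 A w q c)
      - ∑ f, θ j f * DM e w (TC.Sr e n0 A w) i f c
      + ∑ f, θ i f * DM e w (TC.Sr e n0 A w) j f c
      + (∑ f, θ j f * ∑ g, θ i g * TC.y3 e n0 A w g f c)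
      - ∑ f, θ i f * ∑ g, θ j g * TC.y3 e n0 A w g f c := by
    intro i j
    have h1 := tev_step e n0 θ w (TC.rw e n0 A θ w) (fun a b => TC.Mm e n0 A w a b) i j c
    have h2 : TC.dT e n0 A θ w i j c = e i (-∑ b, θ j b * TC.Mm e n0 A w b c) -
        e j (-∑ b, θ i b * TC.Mm e n0 A w b c)
        + ∑ b, ((-∑ f, θ j f * TC.Mm e n0 A w f b) * w i b c + θ j b * TC.rw e n0 A θ w i b c
          - (-∑ f, θ i f * TC.Mm e n0 A w f b) * w j b c - θ i b * TC.rw e n0 A θ w j b c)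
        - (n0 i * (-∑ b, θ j b * TC.Mm e n0 A w b c) - n0 j * (-∑ b, θ i b * TC.Mm e n0 A w b c)) :=
      rfl
    rw [h2, h1]
    have h3 : ∀ i j, ∑ b, θ j b * DM e w (fun a b => TC.Mm e n0 A w a b) i b c =
        (∑ b, θ j b * DM e w (TC.Sr e n0 A w) i b c) + ∑ b, θ j b * DM e w (TC.ze e A w) i b c := by
      intro i j
      rw [← Finset.sum_add_distrib]
      refine Finset.sum_congr rfl fun b _ => ?_
      rw [hM, DM_add]
      ring
    have h4 : ∑ b, (θ j b * TC.rw e n0 A θ w i b c - θ i b * TC.rw e n0 A θ w j b c) =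
        (∑ b, θ j b * ∑ g, θ i g * TC.y3 e n0 A w g b c)
        - (∑ b, θ i b * ∑ g, θ j g * TC.y3 e n0 A w g b c)
        + (∑ b, θ j b * DM e w (TC.ze e A w) i b c) - ∑ b, θ i b * DM e w (TC.ze e A w) j b c := by
      rw [← Finset.sum_sub_distrib, ← Finset.sum_add_distrib, ← Finset.sum_sub_distrib]
      refine Finset.sum_congr rfl fun b _ => ?_
      rw [hrw, hrw]
      ring
    rw [h3, h3, h4]
    ring
  have hsum : ∑ i, ∑ j, A a i * A b j * TC.dT e n0 A θ w i j c =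
      - (∑ i, ∑ j, A a i * A b j * ∑ q, TC.T e n0 θ w i j q * TC.Mm e n0 A w q c)
      - (∑ i, ∑ j, A a i * A b j * ∑ f, θ j f * DM e w (TC.Sr e n0 A w) i f c)
      + (∑ i, ∑ j, A a i * A b j * ∑ f, θ i f * DM e w (TC.Sr e n0 A w) j f c)
      + (∑ i, ∑ j, A a i * A b j * ∑ f, θ j f * ∑ g, θ i g * TC.y3 e n0 A w g f c)
      - ∑ i, ∑ j, A a i * A b j * ∑ f, θ i f * ∑ g, θ j g * TC.y3 e n0 A w g f c := by
    rw [← Finset.sum_neg_distrib, ← Finset.sum_sub_distrib, ← Finset.sum_add_distrib,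
      ← Finset.sum_add_distrib, ← Finset.sum_sub_distrib]
    refine Finset.sum_congr rfl fun i _ => ?_
    rw [← Finset.sum_neg_distrib, ← Finset.sum_sub_distrib, ← Finset.sum_add_distrib,
      ← Finset.sum_add_distrib, ← Finset.sum_sub_distrib]
    refine Finset.sum_congr rfl fun j _ => ?_
    rw [key i j]
    ring
  have hT : ∑ i, ∑ j, A a i * A b j * ∑ q, TC.T e n0 θ w i j q * TC.Mm e n0 A w q c =
      ∑ q, TC.ta e n0 A θ w a b q * TC.Mm e n0 A w q c := by
    have h1 : ∀ q, TC.ta e n0 A θ w a b q * TC.Mm e n0 A w q c =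
        ∑ i, ∑ j, A a i * A b j * (TC.T e n0 θ w i j q * TC.Mm e n0 A w q c) := by
      intro q
      rw [TC.ta, Finset.sum_mul]
      refine Finset.sum_congr rfl fun i _ => ?_
      rw [Finset.sum_mul]
      exact Finset.sum_congr rfl fun j _ => by ring
    have h2 : ∑ q, ∑ i, ∑ j, A a i * A b j * (TC.T e n0 θ w i j q * TC.Mm e n0 A w q c) =
        ∑ i, ∑ j, ∑ q, A a i * A b j * (TC.T e n0 θ w i j q * TC.Mm e n0 A w q c) := by
      rw [Finset.sum_comm]
      exact Finset.sum_congr rfl fun i _ => Finset.sum_comm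
    rw [Finset.sum_congr rfl fun q _ => h1 q, h2]
    exact Finset.sum_congr rfl fun i _ => Finset.sum_congr rfl fun j _ => Finset.mul_sum _ _ _
  rw [hsum, hT, contr1 A θ h.At (fun i f => DM e w (TC.Sr e n0 A w) i f c),
    contr2 A θ h.At (fun j f => DM e w (TC.Sr e n0 A w) j f c),
    contr1 A θ h.At (fun i f => ∑ g, θ i g * TC.y3 e n0 A w g f c),
    contr2 A θ h.At (fun j f => ∑ g, θ j g * TC.y3 e n0 A w g f c),
    contr_y A θ h.At (fun g => TC.y3 e n0 A w g b c), contr_y A θ h.At (fun g => TC.y3 e n0 A w g a c),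
    contr_DM e A w h.anti, contr_DM e A w h.anti]

end Pool.Agent.Helper38.RN
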